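import Pool.Agent.L0h94.SP.StmF

/-!
# Project SP: the two descriptions of the 2-Selmer group agree (module COD; helper56)
-/

set_option autoImplicit false
set_option linter.all false

open Polynomial IsDedekindDomain NumberField
open scoped Classical

namespace Pool.Agent.L0h56.SP

open Pool.Agent.L0h94.SP
open Pool.Agent.N783.PF
open Pool.Agent.N874.PP (sW IsBeta Rt sg rr)
open Pool.Agent.N874.PM (PLoc)
open Pool.Agent.N874.QM (IsLoc S_GLF S_FARC S_FARR)
open Pool.Agent.TH115.GD (Pt act rs IsCoc LocTriv Comp Sep)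

/-- A point gives a class of points. -/
theorem ploc_clF {M F : Type} [Field M] [Field F] [Algebra M F] {A B : M} {h : M[X]}
    (H : PLoc F A B h) : ClF F (X ^ 3 + C A * X + C B) h := by
  have e : (X ^ 3 + C A * X + C B : M[X]).map (algebraMap M F) =
      X ^ 3 + C (algebraMap M F A) * X + C (algebraMap M F B) := by
    simp only [Polynomial.map_add, Polynomial.map_mul, Polynomial.map_pow, Polynomial.map_X,
      Polynomial.map_C]
  unfold ClF Cl
  rw [e]
  rcases H with ⟨g, hg⟩ | ⟨x, y, hy, hxy, g, hg⟩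
  · refine ⟨[], g, fun p hp => absurd hp List.not_mem_nil, ?_⟩
    rw [List.map_nil, List.prod_nil, mul_one]
    exact hg
  · refine ⟨[(x, y)], g, ?_, ?_⟩
    · intro p hp
      rw [List.mem_singleton] at hp
      subst hp
      refine ⟨hy, ?_⟩
      simp only [eval_add, eval_mul, eval_pow, eval_X, eval_C]
      exact hxy
    · rw [List.map_singleton, List.prod_singleton]
      show _ ∣ h.map (algebraMap M F) * (C x - X) - g ^ 2
      rw [mul_comm (h.map (algebraMap M F)) (C x - X)]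
      exact hg

theorem cob_self {M : Type} [Field M] (W : WeierstrassCurve M)
    (f : (Sep M ≃ₐ[M] Sep M) → Pt W (Sep M)) : Cob W (fun σ => f σ - f σ) := by
  refine ⟨0, smul_zero _, fun σ => ?_⟩
  simp

theorem t_COD (hA : S_COA) (hB : S_COB) (hC : S_COC) (hGLF : S_GLF) (hFARC : S_FARC)
    (hFARR : S_FARR) : S_COD := by
  intro M _ _ A B N hd0 hirr hS
  have hfF : fF (X ^ 3 + C A * X + C B : (𝓞 M)[X]) = X ^ 3 + C (A : M) * X + C (B : M) := by
    simp only [fF, Polynomial.map_add, Polynomial.map_mul, Polynomial.map_pow, Polynomial.map_X,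
      Polynomial.map_C]
  have hd : 4 * (A : M) ^ 3 + 27 * (B : M) ^ 2 ≠ 0 := by
    intro h0
    apply hd0
    apply (FaithfulSMul.algebraMap_injective (𝓞 M) M)
    rw [map_zero, map_add, map_mul, map_mul, map_pow, map_pow, map_ofNat, map_ofNat]
    exact h0
  have h6 : (6 : M) ≠ 0 := by norm_num
  unfold SelN SelH at hS
  rw [hfF] at hirr hS
  obtain ⟨R, hcard, hR, hne, hex⟩ := hS
  set a : M := (A : M) with ha
  set b : M := (B : M) with hb
  -- the cocycles of the classes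
  have hco : ∀ h : M[X], ∃ f : (Sep M ≃ₐ[M] Sep M) → Pt (sW a b) (Sep M), h ∈ R →
      ∃ β : Sep M → Sep M, Coc2 (sW a b) f ∧ IsBeta a b f β ∧
        (∀ t : Sep M, Rt a b t → aeval t h = β t ^ 2) ∧ IsLoc (sW a b) f := by
    intro h
    by_cases hh : h ∈ R
    · obtain ⟨h1, h2, h3, h4⟩ := hR h hh
      obtain ⟨f, β, hf, hβ, hval⟩ := hA M a b h6 hd hirr h h1 h2
      refine ⟨f, fun _ => ⟨β, hf, hβ, hval, ?_, ?_⟩⟩
      · intro w
        exact hC M (Comp (𝓞 M) M w) a b h6 hd f hf β h hβ hval (h3 w)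
      · intro ρ
        letI := ρ.toAlgebra
        exact hC M ℝ a b h6 hd f hf β h hβ hval (h4 ρ)
    · exact ⟨fun _ => 0, fun h' => absurd h' hh⟩
  choose φ hφ using hco
  have hinj : Set.InjOn φ R := by
    intro h hh h' hh' e
    by_contra hcon
    obtain ⟨β, c1, c2, c3, c4⟩ := hφ h hh
    obtain ⟨β', c1', c2', c3', c4'⟩ := hφ h' hh'
    apply hne h hh h' hh' hcon
    rw [← hB M a b h6 hd hirr (φ h) (φ h') β β' h h' c1 c1' c2 c2' c3 c3', e]
    exact cob_self _ _
  refine ⟨R.image φ, ?_, ?_, ?_, ?_⟩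
  · rw [Finset.card_image_of_injOn hinj, hcard]
  · intro f hf
    obtain ⟨h, hh, rfl⟩ := Finset.mem_image.mp hf
    obtain ⟨β, c1, c2, c3, c4⟩ := hφ h hh
    exact ⟨c1, c4⟩
  · intro f hf g hg hfg hcob
    obtain ⟨h, hh, rfl⟩ := Finset.mem_image.mp hf
    obtain ⟨h', hh', rfl⟩ := Finset.mem_image.mp hg
    obtain ⟨β, c1, c2, c3, c4⟩ := hφ h hh
    obtain ⟨β', c1', c2', c3', c4'⟩ := hφ h' hh'
    have hne' : h ≠ h' := fun e => hfg (by rw [e])
    exact hne h hh h' hh' hne' ((hB M a b h6 hd hirr _ _ β β' h h' c1 c1' c2 c2' c3 c3').mp hcob)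
  · intro f hf hloc
    obtain ⟨hf1, h2f⟩ := hf
    obtain ⟨β, hβ⟩ := Pool.Agent.N187.PP.gb Pool.Agent.N630.PP.gp3 Pool.Agent.N630.PP.gp4
      M a b h6 hd hirr f hf1 h2f
    obtain ⟨h, hh, hn⟩ := Pool.Agent.N187.PP.gn Pool.Agent.N630.PP.gp3 Pool.Agent.N630.PP.gp4
      M a b h6 hd hirr f hf1 h2f β hβ
    haveI : Fact (Irreducible (X ^ 3 + C a * X + C b : M[X])) := ⟨hirr⟩
    have hdeg : (X ^ 3 + C a * X + C b : M[X]).natDegree = 3 := by compute_degree!
    have ht : Rt a b (AdjoinRoot.root (X ^ 3 + C a * X + C b : M[X])) := by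
      have h1 := AdjoinRoot.eval₂_root (X ^ 3 + C a * X + C b : M[X])
      rw [eval₂_add, eval₂_add, eval₂_mul, eval₂_pow, eval₂_X, eval₂_C, eval₂_C] at h1
      exact h1
    have hL : Module.finrank M (AdjoinRoot (X ^ 3 + C a * X + C b : M[X])) = 3 := by
      rw [(AdjoinRoot.powerBasis hirr.ne_zero).finrank, AdjoinRoot.powerBasis_dim, hdeg]
    have he : ∀ q : M[X], aeval (AdjoinRoot.root (X ^ 3 + C a * X + C b : M[X])) q =
        AdjoinRoot.mk (X ^ 3 + C a * X + C b : M[X]) q := fun q => AdjoinRoot.aeval_eq q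
    obtain ⟨hn1, hn2⟩ := hn _ _ ht hL
    rw [he] at hn1 hn2
    have hcop : IsCoprime h (X ^ 3 + C a * X + C b) := by
      rw [isCoprime_comm, hirr.coprime_iff_not_dvd, ← AdjoinRoot.mk_eq_zero]
      exact hn1
    obtain ⟨h', hh', hsq⟩ := hex h ⟨hcop, hn2, fun w => by
      exact ploc_clF (hGLF M (Comp (𝓞 M) M w) a b h6 hd f hf1 h2f β h hβ hh (hFARC M a b hd w)
        (hloc.fin w)), fun ρ => by
      letI := ρ.toAlgebra
      exact ploc_clF (hGLF M ℝ a b h6 hd f hf1 h2f β h hβ hh (hFARR M a b hd) (hloc.real ρ))⟩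
    refine ⟨φ h', Finset.mem_image_of_mem _ hh', ?_⟩
    obtain ⟨β', c1', c2', c3', c4'⟩ := hφ h' hh'
    exact (hB M a b h6 hd hirr _ _ β β' h h' ⟨hf1, h2f⟩ c1' hβ c2' hh c3').mpr hsq

end Pool.Agent.L0h56.SP
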