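import Pool.Agent.L0h94.SP.StmF
import Pool.Agent.N61.PF.Fin1

/-!
# Project SP: the height with normalized absolute values (module PRD; helper56)
-/

set_option autoImplicit false
set_option linter.all false

open Polynomial IsDedekindDomain NumberField
open scoped Classical

namespace Pool.Agent.L0h56.SP

open Pool.Agent.L0h94.SP
open Pool.Agent.N783.PF
open Pool.Agent.N61.PF

section

variable {F : Type} [Field F] [NumberField F]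

theorem bd_iff (x : F) (R : ℝ) : Bd x R ↔ ∀ v : InfinitePlace F, v x ≤ R := by
  constructor
  · intro h v
    rw [← InfinitePlace.norm_embedding_eq]
    exact h _
  · intro h σ
    have := h (InfinitePlace.mk σ)
    rwa [InfinitePlace.apply] at this

/-- the parameters -/
theorem exists_par (F : Type) [Field F] [NumberField F] (X : ℝ) (hX : 1 ≤ X) :
    ∃ (T U : ℝ) (W : InfinitePlace F → ℝ), 1 ≤ T ∧ 0 < U ∧ T ^ 6 = X ∧
      U ^ Module.finrank ℚ F = T ^ Fintype.card (InfinitePlace F) ∧ (∀ v, 0 < W v) ∧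
      ∀ v, W v ^ v.mult = T := by
  have hd : Module.finrank ℚ F ≠ 0 := Module.finrank_pos.ne'
  have hX0 : 0 ≤ X := by linarith
  set T : ℝ := X ^ ((1 : ℝ) / (6 : ℕ)) with hT
  have hT1 : 1 ≤ T := Real.one_le_rpow hX (by positivity)
  have hT6 : T ^ 6 = X := by
    rw [hT, one_div]
    exact Real.rpow_inv_natCast_pow hX0 (by norm_num)
  have hT0 : 0 ≤ T := by linarith
  refine ⟨T, (T ^ Fintype.card (InfinitePlace F)) ^ ((Module.finrank ℚ F : ℝ)⁻¹),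
    fun v => T ^ ((v.mult : ℝ)⁻¹), hT1, ?_, hT6, ?_, ?_, ?_⟩
  · have : 0 < T := by linarith
    positivity
  · exact Real.rpow_inv_natCast_pow (by positivity) hd
  · intro v
    have : 0 < T := by linarith
    exact Real.rpow_pos_of_pos this _
  · intro v
    exact Real.rpow_inv_natCast_pow hT0 InfinitePlace.mult_pos.ne'

theorem prod_one (U T : ℝ) (W : InfinitePlace F → ℝ) (hT : 0 < T) (hU : 0 < U)
    (h1 : U ^ Module.finrank ℚ F = T ^ Fintype.card (InfinitePlace F)) (h2 : ∀ v, 0 < W v)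
    (h3 : ∀ v, W v ^ v.mult = T) : ∏ v, (Real.sqrt (U / W v)) ^ v.mult = 1 := by
  have h4 : (∏ v, (Real.sqrt (U / W v)) ^ v.mult) ^ 2 = 1 := by
    rw [← Finset.prod_pow]
    have h5 : ∀ v : InfinitePlace F, ((Real.sqrt (U / W v)) ^ v.mult) ^ 2 = U ^ v.mult / T := by
      intro v
      rw [← pow_mul, mul_comm, pow_mul, Real.sq_sqrt (by have := h2 v; positivity), div_pow, h3]
    rw [Finset.prod_congr rfl fun v _ => h5 v, Finset.prod_div_distrib, Finset.prod_pow_eq_pow_sum,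
      InfinitePlace.sum_mult_eq, h1]
    simp [Finset.prod_const, Finset.card_univ, hT.ne']
  have h6 : 0 ≤ ∏ v, (Real.sqrt (U / W v)) ^ v.mult := Finset.prod_nonneg fun v _ => by positivity
  nlinarith [h4, h6]

theorem up_real (n k m : ℕ) (hn : 0 < n) (hm : 0 < m) (T U W C e x : ℝ) (hT : 0 < T) (hU : 0 < U)
    (hW : 0 < W) (hWn : W ^ n = T) (hC : 0 < C) (he : 0 ≤ e) (heC : e ≤ C * Real.sqrt (U / W))
    (hx : 0 ≤ x) (h : (x ^ n) ^ m ≤ (T ^ k) ^ m) : e ^ (2 * k) * x ≤ C ^ (2 * k) * U ^ k := by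
  have h1 : x ^ n ≤ T ^ k := (pow_le_pow_iff_left₀ (by positivity) (by positivity) hm.ne').mp h
  have h2 : x ^ n ≤ (W ^ k) ^ n := by
    rw [← pow_mul, mul_comm k n, pow_mul, hWn]
    exact h1
  have h3 : x ≤ W ^ k := (pow_le_pow_iff_left₀ hx (by positivity) hn.ne').mp h2
  have h4 : e ^ (2 * k) ≤ (C * Real.sqrt (U / W)) ^ (2 * k) := pow_le_pow_left₀ he heC _
  have h5 : (C * Real.sqrt (U / W)) ^ (2 * k) = C ^ (2 * k) * (U / W) ^ k := by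
    rw [mul_pow, pow_mul (Real.sqrt (U / W)), Real.sq_sqrt (by positivity)]
  calc e ^ (2 * k) * x ≤ (C ^ (2 * k) * (U / W) ^ k) * W ^ k :=
        mul_le_mul (h4.trans h5.le) h3 hx (by positivity)
    _ = C ^ (2 * k) * U ^ k := by
        rw [div_pow]
        field_simp

theorem low_real (n k m : ℕ) (T U W C e x B : ℝ) (hT : 0 < T) (hU : 0 < U)
    (hW : 0 < W) (hWn : W ^ n = T) (hC : 0 < C) (he : 0 < e) (heC : Real.sqrt (U / W) ≤ C * e)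
    (hx : 0 ≤ x) (hB : 0 ≤ B) (hBU : C ^ 2 * B ≤ U) (h : x ≤ B ^ k) :
    (((e⁻¹ ^ (2 * k)) * x) ^ n) ^ m ≤ (T ^ k) ^ m := by
  have h1 : e⁻¹ ^ (2 * k) * x ≤ W ^ k := by
    have h2 : U / W ≤ (C * e) ^ 2 := by
      have h3 := Real.sq_sqrt (show 0 ≤ U / W by positivity)
      rw [← h3]
      exact pow_le_pow_left₀ (Real.sqrt_nonneg _) heC 2
    have h4 : C ^ 2 * B ≤ W * (C * e) ^ 2 := by
      rw [div_le_iff₀ hW] at h2
      linarith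
    have h5 : B ≤ W * e ^ 2 := by
      have : C ^ 2 * B ≤ C ^ 2 * (W * e ^ 2) := by nlinarith
      exact le_of_mul_le_mul_left this (by positivity)
    have h6 : x ≤ W ^ k * e ^ (2 * k) := by
      calc x ≤ B ^ k := h
        _ ≤ (W * e ^ 2) ^ k := pow_le_pow_left₀ hB h5 k
        _ = W ^ k * e ^ (2 * k) := by rw [mul_pow, pow_mul]
    rw [inv_pow, inv_mul_le_iff₀ (by positivity)]
    linarith
  apply pow_le_pow_left₀ (by positivity)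
  calc (e⁻¹ ^ (2 * k) * x) ^ n ≤ (W ^ k) ^ n := pow_le_pow_left₀ (by positivity) h1 n
    _ = T ^ k := by rw [← pow_mul, mul_comm k n, pow_mul, hWn]

theorem pcrv_finite (h0 : S_PTS) (X : ℝ) : {p : 𝓞 F × 𝓞 F | PCrv X p}.Finite := by
  obtain ⟨-, C, hC, -, h2⟩ := h0 F
  have hR : (0 : ℝ) ≤ 1 + |X| := by positivity
  have h3 := (h2 ⊤ 0 (1 + |X|) top_ne_bot hR).1
  refine (h3.prod h3).subset ?_
  intro p hp
  have hp' : PCrv X p := hp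
  have h4 : ∀ x : ℝ, 0 ≤ x → ∀ n k : ℕ, 1 ≤ n → 1 ≤ k → (x ^ n) ^ k ≤ X → x ≤ 1 + |X| := by
    intro x hx n k hn hk h
    by_contra hcon
    rw [not_le] at hcon
    have h5 : 1 ≤ x := by linarith [abs_nonneg X]
    have h6 : x ≤ x ^ n := le_self_pow₀ h5 (by omega)
    have h7 : x ^ n ≤ (x ^ n) ^ k := le_self_pow₀ (one_le_pow₀ h5) (by omega)
    linarith [le_abs_self X]
  refine Set.mem_prod.mpr ⟨⟨Submodule.mem_top, ?_⟩, ⟨Submodule.mem_top, ?_⟩⟩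
  · rw [bd_iff]
    intro v
    exact h4 _ (apply_nonneg v _) _ _ InfinitePlace.mult_pos (by norm_num) (hp'.ht v).1
  · rw [bd_iff]
    intro v
    exact h4 _ (apply_nonneg v _) _ _ InfinitePlace.mult_pos (by norm_num) (hp'.ht v).2

theorem v_unit (v : InfinitePlace F) (ε : (𝓞 F)ˣ) (k : ℕ) (a : 𝓞 F) :
    v (((ε : 𝓞 F) ^ k * a : 𝓞 F) : F) = v ((ε : 𝓞 F) : F) ^ k * v (a : F) := by
  have : (((ε : 𝓞 F) ^ k * a : 𝓞 F) : F) = ((ε : 𝓞 F) : F) ^ k * (a : F) := by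
    push_cast
    rfl
  rw [this, map_mul, map_pow]

theorem v_inv (v : InfinitePlace F) (ε : (𝓞 F)ˣ) :
    v (((ε⁻¹ : (𝓞 F)ˣ) : 𝓞 F) : F) = (v ((ε : 𝓞 F) : F))⁻¹ := by
  have h1 : ((ε : 𝓞 F) : F) * (((ε⁻¹ : (𝓞 F)ˣ) : 𝓞 F) : F) = 1 := by
    have : (ε : 𝓞 F) * ((ε⁻¹ : (𝓞 F)ˣ) : 𝓞 F) = 1 := Units.mul_inv ε
    have h2 := congrArg (algebraMap (𝓞 F) F) this
    rwa [map_mul, map_one] at h2
  have h2 := congrArg v h1
  rw [map_mul, map_one] at h2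
  exact eq_inv_of_mul_eq_one_right h2

theorem pcrv_upper (X T U C : ℝ) (W : InfinitePlace F → ℝ) (hT : 0 < T) (hU : 0 < U) (hT6 : T ^ 6 = X)
    (hW : ∀ v, 0 < W v) (hWn : ∀ v, W v ^ v.mult = T) (hC : 0 < C) (ε : (𝓞 F)ˣ)
    (hε : ∀ v : InfinitePlace F, v ((ε : 𝓞 F) : F) ≤ C * Real.sqrt (U / W v))
    (p : 𝓞 F × 𝓞 F) (hp : PCrv X p) :
    Bd (((ε : 𝓞 F) ^ 4 * p.1 : 𝓞 F) : F) (C ^ 4 * U ^ 2) ∧
    Bd (((ε : 𝓞 F) ^ 6 * p.2 : 𝓞 F) : F) (C ^ 6 * U ^ 3) := by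
  constructor
  · rw [bd_iff]
    intro v
    rw [v_unit]
    refine up_real v.mult 2 3 InfinitePlace.mult_pos (by norm_num) T U (W v) C _ _ hT hU (hW v) (hWn v) hC
      (apply_nonneg v _) (hε v) (apply_nonneg v _) ?_
    rw [← pow_mul T 2 3, hT6]
    exact (hp.ht v).1
  · rw [bd_iff]
    intro v
    rw [v_unit]
    refine up_real v.mult 3 2 InfinitePlace.mult_pos (by norm_num) T U (W v) C _ _ hT hU (hW v) (hWn v) hC
      (apply_nonneg v _) (hε v) (apply_nonneg v _) ?_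
    rw [← pow_mul T 3 2, hT6]
    exact (hp.ht v).2

theorem pcrv_low (X T U C : ℝ) (W : InfinitePlace F → ℝ) (hT : 0 < T) (hU : 0 < U) (hT6 : T ^ 6 = X)
    (hW : ∀ v, 0 < W v) (hWn : ∀ v, W v ^ v.mult = T) (hC : 0 < C) (ε : (𝓞 F)ˣ)
    (hε : ∀ v : InfinitePlace F, Real.sqrt (U / W v) ≤ C * v ((ε : 𝓞 F) : F)) (B : ℕ)
    (hBU : C ^ 2 * B ≤ U) (f : (𝓞 F)[X]) (hf : Ht 1 B f) (hirr : Irreducible (fF f)) :
    PCrv X (((ε⁻¹ : (𝓞 F)ˣ) : 𝓞 F) ^ 4 * f.coeff 1, ((ε⁻¹ : (𝓞 F)ˣ) : 𝓞 F) ^ 6 * f.coeff 0) := by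
  refine ⟨?_, ?_⟩
  · have h0 : 4 * (f.coeff 1) ^ 3 + 27 * (f.coeff 0) ^ 2 ≠ 0 := by
      intro h0
      rw [fF_eq hf] at hirr
      apply disc_ne hirr
      have h1 := congrArg (algebraMap (𝓞 F) F) h0
      simp only [map_add, map_mul, map_pow, map_zero] at h1
      have e4 : algebraMap (𝓞 F) F 4 = 4 := map_ofNat _ 4
      have e27 : algebraMap (𝓞 F) F 27 = 27 := map_ofNat _ 27
      rw [e4, e27] at h1
      exact h1
    have e : 4 * (((ε⁻¹ : (𝓞 F)ˣ) : 𝓞 F) ^ 4 * f.coeff 1) ^ 3 +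
        27 * (((ε⁻¹ : (𝓞 F)ˣ) : 𝓞 F) ^ 6 * f.coeff 0) ^ 2 =
        ((ε⁻¹ : (𝓞 F)ˣ) : 𝓞 F) ^ 12 * (4 * (f.coeff 1) ^ 3 + 27 * (f.coeff 0) ^ 2) := by ring
    show 4 * (((ε⁻¹ : (𝓞 F)ˣ) : 𝓞 F) ^ 4 * f.coeff 1) ^ 3 +
        27 * (((ε⁻¹ : (𝓞 F)ˣ) : 𝓞 F) ^ 6 * f.coeff 0) ^ 2 ≠ 0
    rw [e]
    exact mul_ne_zero (pow_ne_zero _ (Units.ne_zero _)) h0
  · intro v
    have hpos : 0 < v ((ε : 𝓞 F) : F) := by
      have h1 : 0 < Real.sqrt (U / W v) := Real.sqrt_pos.mpr (div_pos hU (hW v))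
      have h2 := h1.trans_le (hε v)
      exact (mul_pos_iff_of_pos_left hC).mp h2
    have h1 : v (f.coeff 1 : F) ≤ (B : ℝ) ^ 2 := by
      have := hf.ht 1 (by norm_num)
      exact (bd_iff _ _).mp this v
    have h2 : v (f.coeff 0 : F) ≤ (B : ℝ) ^ 3 := by
      have := hf.ht 0 (by norm_num)
      exact (bd_iff _ _).mp this v
    constructor
    · show (v ((((ε⁻¹ : (𝓞 F)ˣ) : 𝓞 F) ^ 4 * f.coeff 1 : 𝓞 F) : F) ^ v.mult) ^ 3 ≤ X
      rw [v_unit, v_inv]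
      have := low_real v.mult 2 3 T U (W v) C _ _ (B : ℝ) hT hU (hW v) (hWn v) hC hpos (hε v)
        (apply_nonneg v _) (Nat.cast_nonneg _) hBU h1
      rw [← pow_mul T 2 3, hT6] at this
      exact this
    · show (v ((((ε⁻¹ : (𝓞 F)ˣ) : 𝓞 F) ^ 6 * f.coeff 0 : 𝓞 F) : F) ^ v.mult) ^ 2 ≤ X
      rw [v_unit, v_inv]
      have := low_real v.mult 3 2 T U (W v) C _ _ (B : ℝ) hT hU (hW v) (hWn v) hC hpos (hε v)
        (apply_nonneg v _) (Nat.cast_nonneg _) hBU h2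
      rw [← pow_mul T 3 2, hT6] at this
      exact this

end

theorem t_PRD (h0 : S_PTS) (h1 : S_MNS) (h2 : S_UNI) (h3 : S_UTW) : S_PRD := by
  intro F _ _ a
  obtain ⟨-, K, hK, hlow, hup⟩ := h0 F
  obtain ⟨c, hc, B₀, hmain⟩ := h1 F a
  obtain ⟨C, hC1, hunit⟩ := h2 F
  have hC : 0 < C := by linarith
  set d := Module.finrank ℚ F with hd
  have hd0 : d ≠ 0 := Module.finrank_pos.ne'
  set B₁ : ℕ := max B₀ 1 with hB₁
  set E : ℝ := 4 * K ^ 2 * (C ^ (4 * d) * C ^ (6 * d) * (2 * C ^ 2) ^ (5 * d)) with hE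
  have hE0 : 0 < E := by positivity
  refine ⟨c / (K ^ 2 * E), by positivity, (C ^ 2 * B₁) ^ (6 * d), ?_⟩
  intro X
  have hfin := pcrv_finite (F := F) h0 X
  refine ⟨hfin, ?_⟩
  intro hX
  have hB₁1 : 1 ≤ B₁ := le_max_right _ _
  have hB₁r : (1 : ℝ) ≤ B₁ := by exact_mod_cast hB₁1
  have hC2 : 1 ≤ C ^ 2 := one_le_pow₀ hC1
  have hCB : 1 ≤ C ^ 2 * B₁ := by nlinarith
  have hX1 : 1 ≤ X := (one_le_pow₀ hCB).trans hX
  obtain ⟨T, U, W, hT1, hU0, hT6, hUd, hW0, hWn⟩ := exists_par F X hX1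
  have hT0 : 0 < T := by linarith
  have hU1 : C ^ 2 * B₁ ≤ U := by
    have e1 : (C ^ 2 * B₁) ^ d ≤ T := by
      have : ((C ^ 2 * B₁) ^ d) ^ 6 ≤ T ^ 6 := by
        rw [← pow_mul, mul_comm d 6, hT6]
        exact hX
      exact (pow_le_pow_iff_left₀ (by positivity) (by positivity) (by norm_num)).mp this
    have e2 : T ≤ U ^ d := by
      rw [hUd]
      exact le_self_pow₀ hT1 Fintype.card_ne_zero
    exact (pow_le_pow_iff_left₀ (by positivity) hU0.le hd0).mp (e1.trans e2)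
  have hU11 : 1 ≤ U := hCB.trans hU1
  obtain ⟨B, hB⟩ : ∃ B : ℕ, B = ⌊U / C ^ 2⌋₊ := ⟨_, rfl⟩
  have hBB : B₁ ≤ B := by
    rw [hB]
    refine Nat.le_floor ?_
    rw [le_div_iff₀ (by positivity)]
    linarith
  have hB1 : 1 ≤ B := hB₁1.trans hBB
  have hB1r : (1 : ℝ) ≤ B := by exact_mod_cast hB1
  have hBU : C ^ 2 * B ≤ U := by
    have := Nat.floor_le (show 0 ≤ U / C ^ 2 by positivity)
    rw [← hB, le_div_iff₀ (by positivity)] at this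
    linarith
  have hUB : U ≤ 2 * C ^ 2 * B := by
    have := Nat.lt_floor_add_one (U / C ^ 2)
    rw [← hB, div_lt_iff₀ (by positivity)] at this
    nlinarith
  obtain ⟨ε, hε⟩ := hunit (fun v => Real.sqrt (U / W v))
    (fun v => Real.sqrt_pos.mpr (div_pos hU0 (hW0 v))) (prod_one U T W hT0 hU0 hUd hW0 hWn)
  obtain ⟨hfinH, hprop⟩ := hmain B ((le_max_left _ _).trans hBB)
  constructor
  · rw [Set.ncard_pos hfin]
    refine ⟨(1, 1), ⟨?_, ?_⟩⟩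
    · norm_num
    · intro v
      constructor
      · simp; linarith
      · simp; linarith
  -- the upper bound
  have hu : ({p : 𝓞 F × 𝓞 F | PCrv X p}.ncard : ℝ) ≤ E * (B : ℝ) ^ (5 * d) := by
    set R₁ : ℝ := C ^ 4 * U ^ 2 with hR₁
    set R₂ : ℝ := C ^ 6 * U ^ 3 with hR₂
    have hR₁1 : 1 ≤ R₁ := by
      have e1 : 1 ≤ C ^ 4 := one_le_pow₀ hC1
      have e2 : 1 ≤ U ^ 2 := one_le_pow₀ hU11
      nlinarith
    have hR₂1 : 1 ≤ R₂ := by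
      have e1 : 1 ≤ C ^ 6 := one_le_pow₀ hC1
      have e2 : 1 ≤ U ^ 3 := one_le_pow₀ hU11
      nlinarith
    obtain ⟨f1, n1⟩ := hup ⊤ 0 R₁ top_ne_bot (by linarith)
    obtain ⟨f2, n2⟩ := hup ⊤ 0 R₂ top_ne_bot (by linarith)
    rw [Ideal.absNorm_top, Nat.cast_one, div_one] at n1 n2
    have h3 := Set.ncard_le_ncard_of_injOn
      (fun p : 𝓞 F × 𝓞 F => ((ε : 𝓞 F) ^ 4 * p.1, (ε : 𝓞 F) ^ 6 * p.2))
      (s := {p : 𝓞 F × 𝓞 F | PCrv X p})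
      (t := {a : 𝓞 F | a - 0 ∈ (⊤ : Ideal (𝓞 F)) ∧ Bd (a : F) R₁} ×ˢ
        {a : 𝓞 F | a - 0 ∈ (⊤ : Ideal (𝓞 F)) ∧ Bd (a : F) R₂})
      (fun p hp => by
        have h4 := pcrv_upper X T U C W hT0 hU0 hT6 hW0 hWn hC ε (fun v => (hε v).2) p hp
        exact Set.mem_prod.mpr ⟨⟨Submodule.mem_top, h4.1⟩, ⟨Submodule.mem_top, h4.2⟩⟩)
      (by
        intro p _ q _ h
        have e := Prod.mk.injEq .. ▸ h
        have e1 := mul_left_cancel₀ (pow_ne_zero 4 (Units.ne_zero ε)) e.1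
        have e2 := mul_left_cancel₀ (pow_ne_zero 6 (Units.ne_zero ε)) e.2
        exact Prod.ext e1 e2)
      (f1.prod f2)
    rw [Set.ncard_prod] at h3
    have h4 : ({p : 𝓞 F × 𝓞 F | PCrv X p}.ncard : ℝ) ≤
        ({a : 𝓞 F | a - 0 ∈ (⊤ : Ideal (𝓞 F)) ∧ Bd (a : F) R₁}.ncard : ℝ) *
          ({a : 𝓞 F | a - 0 ∈ (⊤ : Ideal (𝓞 F)) ∧ Bd (a : F) R₂}.ncard : ℝ) := by
      exact_mod_cast h3
    have h5 : R₁ ^ d + 1 ≤ 2 * R₁ ^ d := by
      have := one_le_pow₀ hR₁1 (n := d); linarith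
    have h6 : R₂ ^ d + 1 ≤ 2 * R₂ ^ d := by
      have := one_le_pow₀ hR₂1 (n := d); linarith
    calc ({p : 𝓞 F × 𝓞 F | PCrv X p}.ncard : ℝ) ≤ _ := h4
      _ ≤ (K * (R₁ ^ d + 1)) * (K * (R₂ ^ d + 1)) :=
          mul_le_mul n1 n2 (Nat.cast_nonneg _) (by positivity)
      _ ≤ (K * (2 * R₁ ^ d)) * (K * (2 * R₂ ^ d)) := by gcongr
      _ = 4 * K ^ 2 * (C ^ (4 * d) * C ^ (6 * d) * U ^ (5 * d)) := by
          rw [hR₁, hR₂, mul_pow, mul_pow, ← pow_mul, ← pow_mul, ← pow_mul, ← pow_mul]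
          have : (5 * d) = 2 * d + 3 * d := by ring
          rw [this, pow_add]
          ring
      _ ≤ 4 * K ^ 2 * (C ^ (4 * d) * C ^ (6 * d) * (2 * C ^ 2 * B) ^ (5 * d)) := by gcongr
      _ = _ := by
          rw [hE, mul_pow (2 * C ^ 2) (B : ℝ)]
          ring
  have hl := ht_lower hK hlow hB1 hfinH
  rw [← hd] at hl
  have h5 : ({f : (𝓞 F)[X] | Ht 1 B f ∧ Irreducible (fF f) ∧ SelN f (2 ^ a) ∧
      Min 1 f}.ncard : ℝ) ≤
      ({p : 𝓞 F × 𝓞 F | PCrv X p ∧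
        Irreducible (fF (Polynomial.X ^ 3 + Polynomial.C p.1 * Polynomial.X +
          Polynomial.C p.2 : (𝓞 F)[X])) ∧
        SelN (Polynomial.X ^ 3 + Polynomial.C p.1 * Polynomial.X +
          Polynomial.C p.2 : (𝓞 F)[X]) (2 ^ a)}.ncard : ℝ) := by
    have h6 := Set.ncard_le_ncard_of_injOn
      (fun f : (𝓞 F)[X] => (((ε⁻¹ : (𝓞 F)ˣ) : 𝓞 F) ^ 4 * f.coeff 1,
        ((ε⁻¹ : (𝓞 F)ˣ) : 𝓞 F) ^ 6 * f.coeff 0))
      (s := {f : (𝓞 F)[X] | Ht 1 B f ∧ Irreducible (fF f) ∧ SelN f (2 ^ a) ∧ Min 1 f})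
      (t := {p : 𝓞 F × 𝓞 F | PCrv X p ∧
        Irreducible (fF (Polynomial.X ^ 3 + Polynomial.C p.1 * Polynomial.X +
          Polynomial.C p.2 : (𝓞 F)[X])) ∧
        SelN (Polynomial.X ^ 3 + Polynomial.C p.1 * Polynomial.X +
          Polynomial.C p.2 : (𝓞 F)[X]) (2 ^ a)})
      (fun f hf => by
        have e : (Polynomial.X ^ 3 + Polynomial.C (f.coeff 1) * Polynomial.X +
            Polynomial.C (f.coeff 0) : (𝓞 F)[X]) = f := (eq_pol hf.1).symm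
        have h7 := h3 F (f.coeff 1) (f.coeff 0) ε⁻¹ (2 ^ a) (by rw [e]; exact hf.2.1)
          (by rw [e]; exact hf.2.2.1)
        exact ⟨pcrv_low X T U C W hT0 hU0 hT6 hW0 hWn hC ε (fun v => (hε v).1) B hBU f hf.1 hf.2.1,
          h7.1, h7.2⟩)
      (by
        intro f hf f' hf' h
        have e := Prod.mk.injEq .. ▸ h
        have e1 := mul_left_cancel₀ (pow_ne_zero 4 (Units.ne_zero ε⁻¹)) e.1
        have e2 := mul_left_cancel₀ (pow_ne_zero 6 (Units.ne_zero ε⁻¹)) e.2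
        rw [eq_pol hf.1, eq_pol hf'.1, e1, e2])
      (hfin.subset fun p hp => hp.1)
    exact_mod_cast h6
  have h7 : ({p : 𝓞 F × 𝓞 F | PCrv X p}.ncard : ℝ) ≤
      E * (K ^ 2 * ({f : (𝓞 F)[X] | Ht 1 B f}.ncard : ℝ)) :=
    hu.trans (mul_le_mul_of_nonneg_left hl hE0.le)
  calc c / (K ^ 2 * E) * ({p : 𝓞 F × 𝓞 F | PCrv X p}.ncard : ℝ)
      ≤ c / (K ^ 2 * E) * (E * (K ^ 2 * ({f : (𝓞 F)[X] | Ht 1 B f}.ncard : ℝ))) :=
        mul_le_mul_of_nonneg_left h7 (by positivity)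
    _ = c * ({f : (𝓞 F)[X] | Ht 1 B f}.ncard : ℝ) := by
        field_simp
    _ ≤ _ := hprop.trans h5

end Pool.Agent.L0h56.SP
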